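import Mathlib

/-!
# Extending total colorings from precolored matchings (MP_0d3379)

For every `Δ ≥ 7` there are a graph `G` with maximum degree `Δ`, a matching `H` in `G`, and a
total-`(Δ+3)`-coloring of `H` in `G` that does not extend to `G`.

Put `d = Δ - 1 ≥ 6`.  The base graph has parts `A = {a_0, …, a_d}` and `B = {b_0, …, b_{d-1}}`; every
`b` is joined to all but one of the vertices of `A` (`b_0, b_1, b_2` miss `a_0`, `b_3, b_4, b_5` miss
`a_1, a_2, a_3`, the others miss `a_4`), and `a_0` is joined to `a_1, a_2, a_3`.  `G` is obtained by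
hanging a pendant vertex at every vertex, and `H` is the matching of the pendant edges.  The vertices
of `A` and their pendant edges use the colors `0, 1`, those of `B` the colors `2, 3`.  So the edges
between `A` and `B` must use the `d` colors of `L = {4, …, d+3}`; each `b` has `d` neighbours in `A`, so
it sees each color of `L` exactly once.  If `a_0 a_i` had a color `c` of `L`, the edges of color `c`
at `B` would define an injection of `B` into `A \ {a_0, a_i}`, impossible since `d > d - 1`.  So the
three edges `a_0 a_1, a_0 a_2, a_0 a_3` must use the two colors `2, 3`, a contradiction.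
-/

namespace Pool.Agent.Results.MP_0d3379_co.Disproof

/-- `(fv, fe)` is a total-`k`-coloring of the subgraph `H` in `G`: on the vertices and edges of `H`
the colors are those of a total coloring of `H`, and vertices of `H` adjacent in `G` have distinct
colors.  (Only the values on `V(H)` and `E(H)` matter.) -/
def IsTotalColoring {V : Type} {k : ℕ} (G : SimpleGraph V) (H : G.Subgraph)
    (fv : V → Fin k) (fe : Sym2 V → Fin k) : Prop :=
  (∀ u ∈ H.verts, ∀ v ∈ H.verts, G.Adj u v → fv u ≠ fv v) ∧
  (∀ e ∈ H.edgeSet, ∀ e' ∈ H.edgeSet, e ≠ e' → ∀ v, v ∈ e → v ∈ e' → fe e ≠ fe e') ∧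
  (∀ e ∈ H.edgeSet, ∀ v, v ∈ e → fe e ≠ fv v)

/-- The total-`k`-coloring `(fv, fe)` of `H` extends to a total-`k`-coloring of the whole of `G`. -/
def Extends {V : Type} {k : ℕ} (G : SimpleGraph V) (H : G.Subgraph)
    (fv : V → Fin k) (fe : Sym2 V → Fin k) : Prop :=
  ∃ (gv : V → Fin k) (ge : Sym2 V → Fin k), IsTotalColoring G (⊤ : G.Subgraph) gv ge ∧
    (∀ v ∈ H.verts, gv v = fv v) ∧ (∀ e ∈ H.edgeSet, ge e = fe e)

/-- The statement of Q1. -/
def Q1 : Prop :=
  ∀ (V : Type) [Fintype V] (G : SimpleGraph V) [DecidableRel G.Adj] (H : G.Subgraph),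
    H.IsMatching → ∀ (fv : V → Fin (G.maxDegree + 3)) (fe : Sym2 V → Fin (G.maxDegree + 3)),
      IsTotalColoring G H fv fe → Extends G H fv fe

/-! ## The graph -/

/-- The base vertices: `inl a` are the `a_i`, `inr b` the `b_j`.  Here `d = n + 6`. -/
abbrev Base (n : ℕ) : Type := Fin (n + 7) ⊕ Fin (n + 6)

/-- The vertices: `(x, false)` is the base vertex `x`, `(x, true)` the pendant vertex at `x`. -/
abbrev Vtx (n : ℕ) : Type := Base n × Bool

/-- The vertex of `A` missed by `b`. -/
def miss (n : ℕ) (b : Fin (n + 6)) : ℕ :=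
  if b.1 < 3 then 0 else if b.1 < 6 then b.1 - 2 else 4

/-- Half of the base adjacency relation. -/
def rel (n : ℕ) : Base n → Base n → Prop
  | Sum.inl a, Sum.inl a' => a.1 = 0 ∧ 1 ≤ a'.1 ∧ a'.1 ≤ 3
  | Sum.inl a, Sum.inr b => miss n b ≠ a.1
  | Sum.inr _, _ => False

instance (n : ℕ) : DecidableRel (rel n) := fun x y =>
  match x, y with
  | Sum.inl a, Sum.inl a' => inferInstanceAs (Decidable (a.1 = 0 ∧ 1 ≤ a'.1 ∧ a'.1 ≤ 3))
  | Sum.inl a, Sum.inr b => inferInstanceAs (Decidable (miss n b ≠ a.1))
  | Sum.inr _, _ => inferInstanceAs (Decidable False)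

lemma rel_irrefl (n : ℕ) (x : Base n) : ¬ rel n x x := by
  rcases x with a | b
  · simp only [rel]; omega
  · simp [rel]

/-- The graph `G`. -/
def G (n : ℕ) : SimpleGraph (Vtx n) where
  Adj p q := (p.1 = q.1 ∧ p.2 ≠ q.2) ∨
    (p.2 = false ∧ q.2 = false ∧ (rel n p.1 q.1 ∨ rel n q.1 p.1))
  symm := by
    constructor
    intro p q h
    rcases h with h | h
    · exact Or.inl ⟨h.1.symm, h.2.symm⟩
    · exact Or.inr ⟨h.2.1, h.1, h.2.2.symm⟩
  loopless := by
    constructor
    intro p h
    rcases h with h | h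
    · exact h.2 rfl
    · rcases h.2.2 with h | h <;> exact rel_irrefl n _ h

instance (n : ℕ) : DecidableRel (G n).Adj := fun p q =>
  inferInstanceAs (Decidable ((p.1 = q.1 ∧ p.2 ≠ q.2) ∨
    (p.2 = false ∧ q.2 = false ∧ (rel n p.1 q.1 ∨ rel n q.1 p.1))))

/-- The matching `H` of the pendant edges. -/
def H (n : ℕ) : (G n).Subgraph where
  verts := Set.univ
  Adj p q := p.1 = q.1 ∧ p.2 ≠ q.2
  adj_sub := fun h => Or.inl h
  edge_vert := fun _ => Set.mem_univ _
  symm := by
    first
    | exact fun p q h => ⟨h.1.symm, h.2.symm⟩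
    | exact ⟨fun p q h => ⟨h.1.symm, h.2.symm⟩⟩

lemma H_isMatching (n : ℕ) : (H n).IsMatching := by
  rintro ⟨x, s⟩ -
  refine ⟨(x, !s), ⟨rfl, by simp⟩, ?_⟩
  rintro ⟨y, t⟩ ⟨h1, h2⟩
  simp only at h1 h2
  subst h1
  cases s <;> cases t <;> simp_all

/-- The color (a number) of a base vertex. -/
def vc (n : ℕ) : Base n → ℕ
  | Sum.inl a => if 1 ≤ a.1 ∧ a.1 ≤ 3 then 1 else 0
  | Sum.inr _ => 2

/-- The color (a number) of the pendant edge at a base vertex. -/
def hc (n : ℕ) : Base n → ℕ
  | Sum.inl a => if 1 ≤ a.1 ∧ a.1 ≤ 3 then 0 else 1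
  | Sum.inr _ => 3

/-- The color (a number) of a pendant vertex. -/
def pc (n : ℕ) : Base n → ℕ
  | Sum.inl _ => 2
  | Sum.inr _ => 0

lemma vc_lt (n : ℕ) (x : Base n) : vc n x < 4 := by
  rcases x with a | b
  · simp only [vc]; split_ifs <;> omega
  · simp [vc]

lemma hc_lt (n : ℕ) (x : Base n) : hc n x < 4 := by
  rcases x with a | b
  · simp only [hc]; split_ifs <;> omega
  · simp [hc]

lemma pc_lt (n : ℕ) (x : Base n) : pc n x < 4 := by
  rcases x with a | b <;> simp [pc]

/-- The precoloring of the vertices. -/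
def fv (n k : ℕ) (hk : 4 ≤ k) (p : Vtx n) : Fin k :=
  ⟨if p.2 then pc n p.1 else vc n p.1, by
    have h1 := vc_lt n p.1
    have h2 := pc_lt n p.1
    split_ifs <;> omega⟩

/-- The precoloring of the edges of `H`. -/
def fe (n k : ℕ) (hk : 4 ≤ k) : Sym2 (Vtx n) → Fin k :=
  Sym2.lift ⟨fun p q => if p.1 = q.1 then ⟨hc n p.1, lt_of_lt_of_le (hc_lt n p.1) hk⟩
      else ⟨0, by omega⟩, by
    intro p q
    by_cases h : p.1 = q.1
    · simp [h]
    · have h' : ¬ q.1 = p.1 := fun h' => h h'.symm
      simp [h, h']⟩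

lemma fe_mk (n k : ℕ) (hk : 4 ≤ k) (x : Base n) (s t : Bool) :
    (fe n k hk s((x, s), (x, t))).1 = hc n x := by
  simp [fe]

lemma mem_H_edgeSet (n : ℕ) (e : Sym2 (Vtx n)) :
    e ∈ (H n).edgeSet ↔ ∃ x : Base n, e = s((x, false), (x, true)) := by
  induction e with
  | _ p q =>
  rw [SimpleGraph.Subgraph.mem_edgeSet]
  constructor
  · rintro ⟨h1, h2⟩
    rcases p with ⟨x, s⟩
    rcases q with ⟨y, t⟩
    simp only at h1 h2
    subst h1
    refine ⟨x, ?_⟩
    cases s <;> cases t
    · exact absurd rfl h2
    · rfl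
    · exact Sym2.eq_swap
    · exact absurd rfl h2
  · rintro ⟨x, hx⟩
    rw [Sym2.eq_iff] at hx
    rcases hx with ⟨rfl, rfl⟩ | ⟨rfl, rfl⟩
    · exact ⟨rfl, by simp⟩
    · exact ⟨rfl, by simp⟩

/-- The vertex colors and pendant edge colors are compatible with the base adjacency. -/
lemma vc_ne_of_rel (n : ℕ) (x y : Base n) (h : rel n x y) : vc n x ≠ vc n y := by
  rcases x with a | b
  · rcases y with a' | b'
    · simp only [rel] at h
      simp only [vc]
      have h1 : ¬ (1 ≤ a.1 ∧ a.1 ≤ 3) := by omega
      rw [if_neg h1, if_pos h.2]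
      omega
    · simp only [vc]
      split_ifs <;> omega
  · exact absurd h (by simp [rel])

/-- The precoloring is a total coloring of `H` in `G`. -/
lemma pre_isTotal (n k : ℕ) (hk : 4 ≤ k) : IsTotalColoring (G n) (H n) (fv n k hk) (fe n k hk) := by
  refine ⟨?_, ?_, ?_⟩
  · rintro ⟨x, s⟩ - ⟨y, t⟩ - h hcol
    have hcol' := congrArg Fin.val hcol
    simp only [fv] at hcol'
    rcases h with ⟨h1, h2⟩ | ⟨h1, h2, h3⟩
    · simp only at h1 h2
      subst h1
      rcases x with a | b
      · cases s <;> cases t <;> simp_all [vc, pc] <;> split_ifs at hcol' <;> omega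
      · cases s <;> cases t <;> simp_all [vc, pc]
    · simp only at h1 h2 h3
      subst h1 h2
      simp only [Bool.false_eq_true, if_false] at hcol'
      rcases h3 with h3 | h3
      · exact vc_ne_of_rel n _ _ h3 hcol'
      · exact vc_ne_of_rel n _ _ h3 hcol'.symm
  · intro e he e' he' hne v hv hv'
    exfalso
    rw [mem_H_edgeSet] at he he'
    obtain ⟨x, rfl⟩ := he
    obtain ⟨y, rfl⟩ := he'
    apply hne
    have hx : v.1 = x := by
      rw [Sym2.mem_iff] at hv
      rcases hv with rfl | rfl <;> rfl
    have hy : v.1 = y := by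
      rw [Sym2.mem_iff] at hv'
      rcases hv' with rfl | rfl <;> rfl
    rw [← hx, hy]
  · intro e he v hv hcol
    rw [mem_H_edgeSet] at he
    obtain ⟨x, rfl⟩ := he
    have hcol' := congrArg Fin.val hcol
    rw [fe_mk] at hcol'
    rw [Sym2.mem_iff] at hv
    simp only [fv] at hcol'
    rcases hv with rfl | rfl
    · simp only [Bool.false_eq_true, if_false] at hcol'
      rcases x with a | b
      · simp only [hc, vc] at hcol'
        split_ifs at hcol'
      · simp [hc, vc] at hcol'
    · simp only [if_true] at hcol'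
      rcases x with a | b
      · simp only [hc, pc] at hcol'
        split_ifs at hcol'; omega
      · simp [hc, pc] at hcol'

/-! ## The maximum degree -/

lemma adj_base (n : ℕ) (x y : Base n) :
    (G n).Adj (x, false) (y, false) ↔ rel n x y ∨ rel n y x := by
  constructor
  · rintro (⟨-, h⟩ | ⟨-, -, h⟩)
    · exact absurd rfl h
    · exact h
  · intro h
    exact Or.inr ⟨rfl, rfl, h⟩

lemma miss_le (n : ℕ) (b : Fin (n + 6)) : miss n b ≤ 4 := by
  unfold miss; split_ifs <;> omega

/-- An index of the neighbours of a base vertex. -/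
def idx (n : ℕ) (x : Base n) : Vtx n → ℕ
  | (_, true) => n + 6
  | (y, false) => match x, y with
    | Sum.inl _, Sum.inr b => b.1
    | Sum.inl a, Sum.inl a' => if a.1 = 0 then a'.1 - 1 else a.1 + 2
    | Sum.inr b, Sum.inl a => if a.1 < miss n b then a.1 else a.1 - 1
    | Sum.inr _, Sum.inr _ => 0

lemma degree_le (n : ℕ) (p : Vtx n) : (G n).degree p ≤ n + 7 := by
  rw [← SimpleGraph.card_neighborFinset_eq_degree]
  suffices hsuff : ((G n).neighborFinset p).card ≤ (Finset.range (n + 7)).card by
    exact hsuff.trans (le_of_eq (Finset.card_range _))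
  rcases p with ⟨x, s⟩
  cases s
  · apply Finset.card_le_card_of_injOn (idx n x)
    · rintro ⟨y, t⟩ hy
      simp only [Finset.mem_coe, SimpleGraph.mem_neighborFinset, Finset.mem_range] at hy ⊢
      cases t
      · rw [adj_base] at hy
        rcases x with a | b <;> rcases y with a' | b'
        · simp only [rel] at hy
          simp only [idx]
          split_ifs <;> omega
        · simp only [idx]; omega
        · simp only [idx]
          have := miss_le n b
          split_ifs <;> omega
        · simp only [idx]; omega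
      · simp [idx]
    · rintro ⟨y, t⟩ hy ⟨y', t'⟩ hy' h
      simp only [Finset.mem_coe, SimpleGraph.mem_neighborFinset] at hy hy'
      cases t <;> cases t'
      · rw [adj_base] at hy hy'
        rcases x with a | b <;> rcases y with a' | b' <;> rcases y' with a'' | b''
        · simp only [rel] at hy hy'
          simp only [idx] at h
          have : a' = a'' := by
            apply Fin.ext
            split_ifs at h <;> omega
          rw [this]
        · exfalso
          simp only [rel, or_false] at hy hy'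
          simp only [idx] at h
          unfold miss at hy'
          split_ifs at h hy' <;> omega
        · exfalso
          simp only [rel, or_false] at hy hy'
          simp only [idx] at h
          unfold miss at hy
          split_ifs at h hy <;> omega
        · simp only [idx] at h
          rw [Fin.ext h]
        · simp only [rel, false_or] at hy hy'
          simp only [idx] at h
          have : a' = a'' := by
            apply Fin.ext
            split_ifs at h <;> omega
          rw [this]
        · simp [rel] at hy'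
        · simp [rel] at hy
        · simp [rel] at hy
      · exfalso
        rw [adj_base] at hy
        rcases x with a | b <;> rcases y with a' | b'
        · simp only [rel] at hy
          simp only [idx] at h
          split_ifs at h <;> omega
        · simp only [idx] at h; omega
        · simp only [idx] at h
          have := miss_le n b
          split_ifs at h <;> omega
        · simp only [idx] at h; omega
      · exfalso
        rw [adj_base] at hy'
        rcases x with a | b <;> rcases y' with a' | b'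
        · simp only [rel] at hy'
          simp only [idx] at h
          split_ifs at h <;> omega
        · simp only [idx] at h; omega
        · simp only [idx] at h
          have := miss_le n b
          split_ifs at h <;> omega
        · simp only [idx] at h; omega
      · have hp : ∀ z : Base n, (G n).Adj (x, false) (z, true) → x = z := by
          rintro z (⟨h1, -⟩ | ⟨-, h1, -⟩)
          · exact h1
          · exact absurd h1 (by simp)
        rw [← hp y hy, ← hp y' hy']
  · calc _ ≤ ({(x, false)} : Finset (Vtx n)).card := by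
          apply Finset.card_le_card
          rintro ⟨y, t⟩ hy
          rw [SimpleGraph.mem_neighborFinset] at hy
          rw [Finset.mem_singleton]
          rcases hy with ⟨h1, h2⟩ | ⟨h1, -, -⟩
          · simp only at h1 h2
            cases t
            · rw [h1]
            · exact absurd rfl h2
          · exact absurd h1 (by simp)
      _ ≤ _ := by simp

lemma degree_b0 (n : ℕ) : n + 7 ≤ (G n).degree (Sum.inr ⟨0, by omega⟩, false) := by
  rw [← SimpleGraph.card_neighborFinset_eq_degree]
  have h0 : (Finset.univ : Finset (Fin (n + 7))).card = n + 7 := by simp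
  refine h0.symm.le.trans ?_
  refine Finset.card_le_card_of_injOn
    (fun a : Fin (n + 7) => if a.1 = 0 then ((Sum.inr ⟨0, by omega⟩, true) : Vtx n)
      else (Sum.inl a, false)) ?_ ?_
  · intro a _
    simp only [Finset.mem_coe, SimpleGraph.mem_neighborFinset]
    split_ifs with h
    · exact Or.inl ⟨rfl, by simp⟩
    · refine Or.inr ⟨rfl, rfl, Or.inr ?_⟩
      simp only [rel, miss]
      simp only [Nat.zero_lt_succ, if_true]
      omega
  · intro a _ a' _ h
    simp only at h
    split_ifs at h with h1 h2 h2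
    · exact Fin.ext (h1.trans h2.symm)
    · simp at h
    · simp at h
    · simpa using h

lemma maxDegree_eq (n : ℕ) : (G n).maxDegree = n + 7 := by
  apply le_antisymm
  · exact SimpleGraph.maxDegree_le_of_forall_degree_le _ _ (degree_le n)
  · exact (degree_b0 n).trans (SimpleGraph.degree_le_maxDegree _ _)

/-! ## No extension -/

lemma not_extends (n k : ℕ) (hk : 4 ≤ k) (hkn : k = n + 10) :
    ¬ Extends (G n) (H n) (fv n k hk) (fe n k hk) := by
  rintro ⟨gv, ge, ⟨-, h2, h3⟩, hv, he⟩
  have hgv : ∀ x : Base n, (gv (x, false)).1 = vc n x := by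
    intro x
    rw [hv _ (Set.mem_univ _)]
    simp [fv]
  have hge : ∀ x : Base n, (ge s((x, false), (x, true))).1 = hc n x := by
    intro x
    rw [he _ ((mem_H_edgeSet n _).mpr ⟨x, rfl⟩), fe_mk]
  have hmem : ∀ p q : Vtx n, (G n).Adj p q → s(p, q) ∈ (⊤ : (G n).Subgraph).edgeSet := by
    intro p q h
    rw [SimpleGraph.Subgraph.mem_edgeSet]
    exact h
  let c : Base n → Base n → ℕ := fun x y => (ge s((x, false), (y, false))).1
  have hclt : ∀ x y, c x y < n + 10 := fun x y => hkn ▸ (ge s((x, false), (y, false))).2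
  have hkey : ∀ x y : Base n, (rel n x y ∨ rel n y x) →
      c x y ≠ vc n x ∧ c x y ≠ vc n y ∧ c x y ≠ hc n x ∧ c x y ≠ hc n y := by
    intro x y h
    have hadj : (G n).Adj (x, false) (y, false) := (adj_base n x y).mpr h
    refine ⟨?_, ?_, ?_, ?_⟩
    · intro hh
      apply h3 _ (hmem _ _ hadj) (x, false) (by simp)
      apply Fin.ext
      rw [hgv]; exact hh
    · intro hh
      apply h3 _ (hmem _ _ hadj) (y, false) (by simp)
      apply Fin.ext
      rw [hgv]; exact hh
    · intro hh
      apply h2 _ (hmem _ _ hadj) s((x, false), (x, true)) (hmem _ _ (Or.inl ⟨rfl, by simp⟩)) ?_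
        (x, false) (by simp) (by simp)
      · apply Fin.ext
        rw [hge]; exact hh
      · intro heq
        have : ((x, true) : Vtx n) ∈ s(((x, false) : Vtx n), ((y, false) : Vtx n)) := by
          rw [heq]; simp
        simp at this
    · intro hh
      apply h2 _ (hmem _ _ hadj) s((y, false), (y, true)) (hmem _ _ (Or.inl ⟨rfl, by simp⟩)) ?_
        (y, false) (by simp) (by simp)
      · apply Fin.ext
        rw [hge]; exact hh
      · intro heq
        have : ((y, true) : Vtx n) ∈ s(((x, false) : Vtx n), ((y, false) : Vtx n)) := by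
          rw [heq]; simp
        simp at this
  -- properness at a common base vertex
  have hproper : ∀ x y z : Base n, (rel n x y ∨ rel n y x) → (rel n x z ∨ rel n z x) → y ≠ z →
      c x y ≠ c x z := by
    intro x y z hxy hxz hyz hh
    apply h2 _ (hmem _ _ ((adj_base n x y).mpr hxy)) _ (hmem _ _ ((adj_base n x z).mpr hxz)) ?_
      (x, false) (by simp) (by simp)
    · exact Fin.ext hh
    · intro heq
      rw [Sym2.eq_iff] at heq
      rcases heq with ⟨-, h⟩ | ⟨h, h'⟩
      · exact hyz (congrArg Prod.fst h)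
      · exact hyz ((congrArg Prod.fst h').trans (congrArg Prod.fst h))
  have hsymm : ∀ x y, c x y = c y x := by
    intro x y
    simp only [c]
    rw [Sym2.eq_swap]
  -- edges between `A` and `B` use the colors `≥ 4`
  have hAB : ∀ (a : Fin (n + 7)) (b : Fin (n + 6)), miss n b ≠ a.1 →
      4 ≤ c (Sum.inr b) (Sum.inl a) := by
    intro a b hab
    obtain ⟨h1, h2, h3, h4⟩ := hkey (Sum.inr b) (Sum.inl a) (Or.inr hab)
    simp only [vc, hc] at h1 h2 h3 h4
    split_ifs at h2 h4 <;> omega
  -- each `b` sees each color `≥ 4`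
  have hsurj : ∀ (b : Fin (n + 6)) (γ : ℕ), 4 ≤ γ → γ < n + 10 →
      ∃ a : Fin (n + 7), miss n b ≠ a.1 ∧ c (Sum.inr b) (Sum.inl a) = γ := by
    intro b γ h4 hγ
    have hcard : (Finset.Ico 4 (n + 10)).card ≤
        (Finset.univ.filter (fun a : Fin (n + 7) => miss n b ≠ a.1)).card := by
      have h5 := miss_le n b
      have : Finset.univ.filter (fun a : Fin (n + 7) => miss n b ≠ a.1) =
          Finset.univ.erase ⟨miss n b, by omega⟩ := by
        ext a
        simp [Fin.ext_iff, eq_comm]
      rw [this, Finset.card_erase_of_mem (Finset.mem_univ _)]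
      simp
    have hs := Finset.surjOn_of_injOn_of_card_le
      (s := Finset.univ.filter (fun a : Fin (n + 7) => miss n b ≠ a.1))
      (t := Finset.Ico 4 (n + 10)) (fun a => c (Sum.inr b) (Sum.inl a)) ?_ ?_ hcard
    · have := hs (Finset.mem_coe.mpr (Finset.mem_Ico.mpr ⟨h4, hγ⟩))
      obtain ⟨a, ha, haγ⟩ := this
      simp only [Finset.coe_filter, Finset.mem_univ, true_and] at ha
      exact ⟨a, ha, haγ⟩
    · intro a ha
      simp only [Finset.coe_filter, Finset.mem_univ, true_and] at ha
      simp only [Finset.coe_Ico, Set.mem_Ico]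
      exact ⟨hAB a b ha, hclt _ _⟩
    · intro a ha a' ha' hh
      simp only [Finset.coe_filter, Finset.mem_univ, true_and] at ha ha'
      by_contra hne
      exact hproper (Sum.inr b) (Sum.inl a) (Sum.inl a') (Or.inr ha) (Or.inr ha')
        (fun h => hne (Sum.inl.inj h)) hh
  -- the star edges use the colors `2, 3`
  have hstar : ∀ i : Fin (n + 7), 1 ≤ i.1 → i.1 ≤ 3 →
      c (Sum.inl ⟨0, by omega⟩) (Sum.inl i) < 4 := by
    intro i hi1 hi3
    by_contra hge4
    push Not at hge4
    set a0 : Fin (n + 7) := ⟨0, by omega⟩ with ha0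
    have hrel : rel n (Sum.inl a0) (Sum.inl i) := ⟨rfl, hi1, hi3⟩
    have hex : ∀ b : Fin (n + 6), ∃ a : Fin (n + 7), miss n b ≠ a.1 ∧
        c (Sum.inr b) (Sum.inl a) = c (Sum.inl a0) (Sum.inl i) :=
      fun b => hsurj b _ hge4 (hclt _ _)
    choose g hg1 hg2 using hex
    have hginj : Function.Injective g := by
      intro b b' hbb
      by_contra hne
      apply hproper (Sum.inl (g b)) (Sum.inr b) (Sum.inr b') (Or.inl (hg1 b))
        (Or.inl (by rw [hbb]; exact hg1 b')) (fun h => hne (Sum.inr.inj h))
      rw [hsymm _ (Sum.inr b), hsymm _ (Sum.inr b'), hg2 b, hbb, hg2 b']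
    have hg0 : ∀ b, g b ≠ a0 := by
      intro b hb
      apply hproper (Sum.inl a0) (Sum.inr b) (Sum.inl i) (Or.inl (by rw [← hb]; exact hg1 b))
        (Or.inl hrel) (by simp)
      rw [hsymm _ (Sum.inr b)]
      have := hg2 b
      rw [hb] at this
      exact this
    have hgi : ∀ b, g b ≠ i := by
      intro b hb
      apply hproper (Sum.inl i) (Sum.inr b) (Sum.inl a0) (Or.inl (by rw [← hb]; exact hg1 b))
        (Or.inr hrel) (by simp)
      rw [hsymm _ (Sum.inr b), hsymm _ (Sum.inl a0)]
      have := hg2 b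
      rw [hb] at this
      exact this
    have hne : a0 ≠ i := by
      intro h
      have := congrArg Fin.val h
      simp only [ha0] at this
      omega
    have hcard := Finset.card_le_card_of_injOn (s := (Finset.univ : Finset (Fin (n + 6))))
      (t := (Finset.univ.erase a0).erase i) g (by
        intro b _
        simp only [Finset.coe_erase, Finset.coe_univ, Set.mem_sdiff, Set.mem_univ, true_and,
          Set.mem_singleton_iff]
        exact ⟨hg0 b, hgi b⟩) (hginj.injOn)
    rw [Finset.card_erase_of_mem (Finset.mem_erase.mpr ⟨hne.symm, Finset.mem_univ _⟩),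
      Finset.card_erase_of_mem (Finset.mem_univ _)] at hcard
    simp only [Finset.card_univ, Fintype.card_fin] at hcard
    omega
  have hge2 : ∀ i : Fin (n + 7), 1 ≤ i.1 → i.1 ≤ 3 →
      2 ≤ c (Sum.inl ⟨0, by omega⟩) (Sum.inl i) := by
    intro i hi1 hi3
    obtain ⟨h1, h2, h3, h4⟩ := hkey (Sum.inl ⟨0, by omega⟩) (Sum.inl i) (Or.inl ⟨rfl, hi1, hi3⟩)
    simp only [vc, hc] at h1 h2 h3 h4
    rw [if_pos ⟨hi1, hi3⟩] at h2 h4
    omega
  have hne : ∀ i j : Fin (n + 7), 1 ≤ i.1 → i.1 ≤ 3 → 1 ≤ j.1 → j.1 ≤ 3 → i ≠ j →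
      c (Sum.inl ⟨0, by omega⟩) (Sum.inl i) ≠ c (Sum.inl ⟨0, by omega⟩) (Sum.inl j) := by
    intro i j hi1 hi3 hj1 hj3 hij
    exact hproper _ _ _ (Or.inl ⟨rfl, hi1, hi3⟩) (Or.inl ⟨rfl, hj1, hj3⟩)
      (fun h => hij (Sum.inl.inj h))
  have e1 := hstar ⟨1, by omega⟩ (by simp) (by simp)
  have e2 := hstar ⟨2, by omega⟩ (by simp) (by simp)
  have e3 := hstar ⟨3, by omega⟩ (by simp) (by simp)
  have f1 := hge2 ⟨1, by omega⟩ (by simp) (by simp)
  have f2 := hge2 ⟨2, by omega⟩ (by simp) (by simp)
  have f3 := hge2 ⟨3, by omega⟩ (by simp) (by simp)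
  have g12 := hne ⟨1, by omega⟩ ⟨2, by omega⟩ (by simp) (by simp) (by simp) (by simp) (by simp)
  have g13 := hne ⟨1, by omega⟩ ⟨3, by omega⟩ (by simp) (by simp) (by simp) (by simp) (by simp)
  have g23 := hne ⟨2, by omega⟩ ⟨3, by omega⟩ (by simp) (by simp) (by simp) (by simp) (by simp)
  omega

/-! ## The result -/

/-- **Q1 is false**, and it fails for every maximum degree `Δ ≥ 7`. -/
theorem result :
    (∀ Δ : ℕ, 7 ≤ Δ → ∃ (V : Type) (_ : Fintype V) (G : SimpleGraph V) (_ : DecidableRel G.Adj)
      (H : G.Subgraph) (fv : V → Fin (Δ + 3)) (fe : Sym2 V → Fin (Δ + 3)),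
      G.maxDegree = Δ ∧ H.IsMatching ∧ IsTotalColoring G H fv fe ∧ ¬ Extends G H fv fe) ∧
    ¬ Q1 := by
  constructor
  · intro Δ hΔ
    obtain ⟨n, rfl⟩ := Nat.exists_eq_add_of_le' hΔ
    exact ⟨Vtx n, inferInstance, G n, inferInstance, H n, fv n (n + 7 + 3) (by omega),
      fe n (n + 7 + 3) (by omega), maxDegree_eq n, H_isMatching n, pre_isTotal n _ _,
      not_extends n _ _ (by omega)⟩
  · intro h
    have h4 : 4 ≤ (G 0).maxDegree + 3 := by rw [maxDegree_eq]; omega
    exact not_extends 0 _ h4 (by rw [maxDegree_eq])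
      (h (Vtx 0) (G 0) (H 0) (H_isMatching 0) (fv 0 _ h4) (fe 0 _ h4) (pre_isTotal 0 _ h4))

end Pool.Agent.Results.MP_0d3379_co.Disproof
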